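import Pool.Agent.MCG.Half

/-!
# MC integers have only short gaps

`R_n = Rn n` is the supremum of the radii of the circles whose open disc contains exactly `n`
lattice points, and `n` is MC if this supremum is attained.
-/

namespace Pool.Agent.Results.MP_9ae7ab_nt.MCGaps

open Pool.Agent.MCG

/-- (1) If `n` is non-MC, then some circle of radius `R_n` has `m` lattice points in its open disc
and `k` lattice points on it, where `m` is MC, `R_m = R_n` and `m < n < m + ⌊k/2⌋`.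
(2) Every interval `[n - C n^ε, n]` contains an MC integer.
(3) At least `c N^(1-ε)` of the integers below `N` are MC. -/
theorem result :
    (∀ n : ℕ, ¬ MC n → ∃ c : ℝ × ℝ, MC (count c (Rn n)) ∧ Rn (count c (Rn n)) = Rn n ∧
      count c (Rn n) < n ∧ n < count c (Rn n) + (onCircle c (Rn n)).ncard / 2) ∧
    (∀ ε : ℝ, 0 < ε → ∃ C : ℝ, 0 < C ∧ ∀ n : ℕ, 1 ≤ n →
      ∃ m : ℕ, MC m ∧ m ≤ n ∧ (n : ℝ) ≤ m + C * (n : ℝ) ^ ε) ∧
    (∀ ε : ℝ, 0 < ε → ∃ c : ℝ, 0 < c ∧ ∀ N : ℕ, 1 ≤ N →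
      c * (N : ℝ) ^ (1 - ε) ≤ ({m : ℕ | m < N ∧ MC m}.ncard : ℝ)) :=
  ⟨fun _ hn => nonMC_step hn, gaps, counting⟩

end Pool.Agent.Results.MP_9ae7ab_nt.MCGaps
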